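import Pool.Agent.R940.HDefs

/-!
# Absolutely Hodge classes on products with varieties of CM type: definitions
-/

open CategoryTheory AlgebraicGeometry

universe u w

namespace Pool.Agent.R936.Arb.Ab

open Pool.Agent.H914 Pool.Agent.H914.VarClass Pool.Agent.H914.VarClass.Obj
  Pool.Agent.H914.WeilCohomology Pool.Agent.Y121.AHS Pool.Agent.R940

variable {k : Type u} [Field k] {𝒱 : VarClass k} {ops : CycleOps 𝒱} {I : Type w}

/-- The product `X i × X j₁ × ⋯ × X jₘ` of members of the family `X`, where `L = [j₁, ..., jₘ]`. -/
noncomputable def prodOf (X : I → 𝒱.Obj) : I → List I → 𝒱.Obj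
  | i, [] => X i
  | i, j :: L => (X i).prod (prodOf X j L)

/-- The power `Y ^ n` of the product `Y = X i × X j₁ × ⋯ × X jₘ`, where `L = [j₁, ..., jₘ]` (and `Y`
for `n = 0`), written as a product of members of the family. -/
noncomputable def powerOf (X : I → 𝒱.Obj) (i : I) (L : List I) (n : ℕ) : 𝒱.Obj :=
  prodOf X i (L ++ (List.replicate (n - 1) (i :: L)).flatten)

/-- There are `R` rational endomorphisms `E j` of the sum of the cohomology groups of the members of
the family `X`, which map the cohomology of each member `X i` to itself, such that the operator which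
acts on the spaces `H^(p,q)(X i)` as the multiplication by `p - q` is a linear combination
`∑ z j * E j` with complex coefficients. (`smL` is the multiplication by a complex number.)

This operator generates the Lie algebra of the image of the circle group, and for Hodge structures of
CM type the least such number `R` is the dimension of their Hodge group. -/
def HgDimLe (T : HodgeTheory ops) (X : I → 𝒱.Obj) (R : ℕ) : Prop :=
  ∃ (E : Fin R → ∀ i, EndH T (X i)) (z : Fin R → ℂ),
    ∀ (i : I) (p q : ℤ) (x : HL T.W ℂ (X i)), IsType T.pq p q x →
      ∑ j, smL (z j) (endC (E j i) x) = smL ((p - q : ℤ) : ℂ) x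

/-- All Hodge classes on `Y` are absolutely Hodge. -/
def HodgeAbs {T : HodgeTheory ops} (D : Conjugates T) (Y : 𝒱.Obj) : Prop :=
  ∀ (j : ℕ) (c : T.W.H Y), IsHodge T Y j c → IsAbsHodge D Y j c

end Pool.Agent.R936.Arb.Ab
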