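import Pool.Agent.R936.Arb.Pred
import Pool.Agent.R936.Arb.AbsDefs

/-!
# Products with an arbitrary factor: absolutely Hodge classes
-/

set_option linter.unusedVariables false
set_option linter.unusedSectionVars false

open CategoryTheory AlgebraicGeometry TensorProduct

universe u v w

namespace Pool.Agent.R936.Arb.Ab

open Pool.Agent.H914 VarClass Obj WeilCohomology
open Pool.Agent.Y121 Pool.Agent.Y121.AHS
open Pool.Agent.R940 (NonnegTypes IsCM)

variable {k : Type u} [Field k] {𝒱 : VarClass k} {ops : CycleOps 𝒱} {I : Type w} {X : I → 𝒱.Obj}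
  {T : AHS.HodgeTheory ops}

lemma prodOf_eq : ∀ (i : I) (L : List I), prodOf X i L = Hel2.prodOf X i L
  | i, [] => rfl
  | i, j :: L => by
    rw [prodOf, Hel2.prodOf, prodOf_eq j L]

lemma powerOf_eq (i : I) (L : List I) (n : ℕ) : powerOf X i L n = Arb.powerOf X i L n :=
  prodOf_eq _ _

theorem abs_main [Nonempty I] (D : Conjugates T) (hpos : NonnegTypes T) (hX : ∀ i, IsCM T (X i))
    {R : ℕ} (hR : HgDimLe T X R)
    (h : ∀ i L, (∃ F : Finset I, F.card ≤ R + 1 ∧ ∀ j ∈ i :: L, j ∈ F) →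
      HodgeAbs D (prodOf X i L)) :
    (∀ i L, HodgeAbs D (prodOf X i L)) ∧
    ∃ (i0 : I) (L0 : List I), ∀ Z : 𝒱.Obj,
      HodgeAbs D (Z.prod (powerOf X i0 L0 Z.dim)) ↔ ∀ i L, HodgeAbs D (Z.prod (prodOf X i L)) := by
  simp only [prodOf_eq, powerOf_eq] at h ⊢
  exact abs_iff D hpos hX (show Hel2.HodgeGroupDimLe T X R from hR) (m := ⊤) (Or.inl rfl)
    fun i L hL => h i L hL.1

end Pool.Agent.R936.Arb.Ab
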