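import Pool.Agent.R936.Per.Lin

/-!
# The monoid of the bounded vectors of a lattice of finite rank is finitely generated
-/

set_option linter.unusedVariables false
set_option linter.unusedSectionVars false

namespace Pool.Agent.R936.Arb

open Pool.Agent.R936.Per (exists_letters)

variable {Lt S : Type*} (h : Lt → S → ℤ)

/-- The sum of the weights. -/
def lam (M : Multiset Lt) : S → ℤ := (M.map h).sum

lemma lam_add (M M' : Multiset Lt) : lam h (M + M') = lam h M + lam h M' := by
  rw [lam, Multiset.map_add, Multiset.sum_add]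
  rfl

lemma lam_zero : lam h 0 = 0 := rfl

variable {h}

lemma lam_dual {st : Lt → Lt} (hst : ∀ l, h (st l) = - h l) (M : Multiset Lt) :
    lam h (M.map st) = - lam h M := by
  induction M using Multiset.induction_on with
  | empty => simp [lam]
  | cons a M ih =>
    rw [lam, Multiset.map_cons, Multiset.map_cons, Multiset.sum_cons, lam, Multiset.map_cons,
      Multiset.sum_cons, hst, neg_add]
    congr 1

/-- Finitely many coordinates are enough. -/
lemma exists_sep {N : ℕ}
    (hN : ∀ s : Fin (N + 1) → Lt, ∃ a : Fin (N + 1) → ℤ, a ≠ 0 ∧ ∑ i, a i • h (s i) = 0) :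
    ∃ s : Finset S, ∀ M : Multiset Lt, (∀ σ ∈ s, lam h M σ = 0) → lam h M = 0 := by
  classical
  obtain ⟨J, _, hJ⟩ := exists_letters h hN
  let K : Finset S → Submodule ℚ (J → ℚ) := fun s =>
    { carrier := {c | ∀ σ ∈ s, ∑ j : J, c j * (h j σ : ℚ) = 0}
      zero_mem' := fun σ _ => by simp
      add_mem' := fun {a b} ha hb σ hσ => by
        have h1 : ∑ j : J, (a + b) j * (h j σ : ℚ) = ∑ j : J, a j * (h j σ : ℚ) +
            ∑ j : J, b j * (h j σ : ℚ) := by
          rw [← Finset.sum_add_distrib]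
          exact Finset.sum_congr rfl fun j _ => by rw [Pi.add_apply, add_mul]
        rw [h1, ha σ hσ, hb σ hσ, add_zero]
      smul_mem' := fun r a ha σ hσ => by
        have h1 : ∑ j : J, (r • a) j * (h j σ : ℚ) = r * ∑ j : J, a j * (h j σ : ℚ) := by
          rw [Finset.mul_sum]
          exact Finset.sum_congr rfl fun j _ => by rw [Pi.smul_apply, smul_eq_mul, mul_assoc]
        rw [h1, ha σ hσ, mul_zero] }
  obtain ⟨s, hs⟩ : ∃ s : Finset S, ∀ s' : Finset S,
      Module.finrank ℚ (K s) ≤ Module.finrank ℚ (K s') := by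
    have h1 : ∃ n, ∃ s : Finset S, Module.finrank ℚ (K s) = n := ⟨_, ∅, rfl⟩
    obtain ⟨s, hs⟩ := Nat.find_spec h1
    exact ⟨s, fun s' => hs.le.trans (Nat.find_min' h1 ⟨s', rfl⟩)⟩
  refine ⟨s, fun M hM => ?_⟩
  obtain ⟨n, c, hn, hc⟩ := hJ M
  have hmem : (fun j : J => (c j : ℚ)) ∈ K s := by
    intro σ hσ
    have h1 := congrFun hc σ
    have h2 : (n • (M.map h).sum) σ = 0 := by
      rw [Pi.smul_apply]
      have h3 : (M.map h).sum σ = 0 := hM σ hσ
      rw [h3, smul_zero]
    rw [h2, Finset.sum_apply, ← Finset.sum_coe_sort] at h1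
    have h3 : ((∑ j : J, (c j • h j) σ : ℤ) : ℚ) = 0 := by rw [← h1, Int.cast_zero]
    rw [← h3]
    push_cast
    refine Finset.sum_congr rfl fun j _ => ?_
    rw [Pi.smul_apply, smul_eq_mul]
    push_cast
    rfl
  funext σ
  have hle : K (insert σ s) ≤ K s := fun c hc τ hτ => hc τ (Finset.mem_insert_of_mem hτ)
  have heq : K (insert σ s) = K s :=
    Submodule.eq_of_le_of_finrank_le hle (hs _)
  rw [← heq] at hmem
  have h1 := hmem σ (Finset.mem_insert_self σ s)
  have h2 := congrFun hc σ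
  rw [Finset.sum_apply, ← Finset.sum_coe_sort] at h2
  have h3 : ((∑ j : J, (c j • h j) σ : ℤ) : ℚ) = 0 := by
    rw [← h1]
    push_cast
    refine Finset.sum_congr rfl fun j _ => ?_
    rw [Pi.smul_apply, smul_eq_mul]
    push_cast
    rfl
  have h4 : (n • (M.map h).sum) σ = 0 := by
    rw [h2]
    exact_mod_cast h3
  rw [Pi.smul_apply, nsmul_eq_mul] at h4
  exact (mul_eq_zero.1 h4).resolve_left (by exact_mod_cast hn.ne')

/-- The bounded vectors are sums of few vectors of a finite set. -/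
theorem exists_gens {N : ℕ}
    (hN : ∀ s : Fin (N + 1) → Lt, ∃ a : Fin (N + 1) → ℤ, a ≠ 0 ∧ ∑ i, a i • h (s i) = 0)
    {st : Lt → Lt} (hst : ∀ l, h (st l) = - h l) :
    ∃ G : List (Multiset Lt), ∀ (n : ℕ) (M : Multiset Lt), (∀ σ, |lam h M σ| ≤ n) →
      ∃ Ms : List (Multiset Lt), Ms.length ≤ n ∧ (∀ M' ∈ Ms, M' ∈ G) ∧
        (Ms.map (lam h)).sum = lam h M := by
  classical
  obtain ⟨s, hs⟩ := exists_sep hN
  let φ : Multiset Lt × ℕ → (Option (s × Bool) → ℕ) := fun x o =>
    match o with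
    | none => x.2
    | some (σ, true) => ((x.2 : ℤ) + lam h x.1 σ).toNat
    | some (σ, false) => ((x.2 : ℤ) - lam h x.1 σ).toNat
  let E : Set (Multiset Lt × ℕ) := {x | 1 ≤ x.2 ∧ ∀ σ ∈ s, |lam h x.1 σ| ≤ x.2}
  let P : (Option (s × Bool) → ℕ) → Prop := fun a => a ∈ φ '' E
  have hfin : {a | Minimal P a}.Finite := by
    have h1 : IsAntichain (· ≤ ·) {a | Minimal P a} := by
      intro a ha b hb hab hle
      exact hab (le_antisymm hle (hb.2 ha.1 hle))
    exact WellQuasiOrderedLE.finite_of_isAntichain h1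
  have hch : ∀ a : {a | Minimal P a}, ∃ x ∈ E, φ x = a := fun a => a.2.1
  choose g hgE hgφ using hch
  have := hfin.fintype
  refine ⟨(Finset.univ : Finset {a | Minimal P a}).toList.map fun a => (g a).1, ?_⟩
  have key : ∀ (n : ℕ) (M : Multiset Lt), (M, n) ∈ E →
      ∃ Ms : List (Multiset Lt), Ms.length ≤ n ∧
        (∀ M' ∈ Ms, M' ∈ (Finset.univ : Finset {a | Minimal P a}).toList.map fun a => (g a).1) ∧
        (Ms.map (lam h)).sum = lam h M := by
    intro n
    induction n using Nat.strong_induction_on with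
    | _ n ih =>
      intro M hM
      obtain ⟨a, ha, ha'⟩ := exists_minimal_le_of_wellFoundedLT P (φ (M, n)) ⟨_, hM, rfl⟩
      obtain ⟨hE1, hE2⟩ := hgE ⟨a, ha'⟩
      have hφ := hgφ ⟨a, ha'⟩
      set x := g ⟨a, ha'⟩ with hx
      have hle : ∀ o, φ x o ≤ φ (M, n) o := fun o => by
        rw [hφ]
        exact ha o
      have hn : x.2 ≤ n := hle none
      have hmemG : x.1 ∈ (Finset.univ : Finset {a | Minimal P a}).toList.map
          fun a => (g a).1 := by
        rw [List.mem_map]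
        exact ⟨⟨a, ha'⟩, Finset.mem_toList.2 (Finset.mem_univ _), rfl⟩
      have hlam : lam h (M + x.1.map st) = lam h M - lam h x.1 := by
        rw [lam_add, lam_dual hst, sub_eq_add_neg]
      have hbd : ∀ σ ∈ s, |lam h (M + x.1.map st) σ| ≤ ((n - x.2 : ℕ) : ℤ) := by
        intro σ hσ
        have h1 : ((x.2 : ℤ) + lam h x.1 σ).toNat ≤ ((n : ℤ) + lam h M σ).toNat :=
          hle (some (⟨σ, hσ⟩, true))
        have h2 : ((x.2 : ℤ) - lam h x.1 σ).toNat ≤ ((n : ℤ) - lam h M σ).toNat :=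
          hle (some (⟨σ, hσ⟩, false))
        have h3 := abs_le.1 (hE2 σ hσ)
        have h4 : -(n : ℤ) ≤ lam h M σ ∧ lam h M σ ≤ n := abs_le.1 (hM.2 σ hσ)
        have h5 : lam h (M + x.1.map st) σ = lam h M σ - lam h x.1 σ := congrFun hlam σ
        have h6 : ((n - x.2 : ℕ) : ℤ) = (n : ℤ) - x.2 := by
          push_cast [hn]
          ring
        rw [h5, abs_le, h6]
        constructor <;> omega
      by_cases h0 : n - x.2 = 0
      · refine ⟨[x.1], ?_, ?_, ?_⟩
        · rw [List.length_singleton]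
          exact hM.1
        · intro M' hM'
          rw [List.mem_singleton.1 hM']
          exact hmemG
        · have h1 := hs (M + x.1.map st) (fun σ hσ => by
            have h2 := hbd σ hσ
            rw [h0, Nat.cast_zero] at h2
            exact abs_eq_zero.1 (le_antisymm h2 (abs_nonneg _)))
          rw [hlam, sub_eq_zero] at h1
          rw [List.map_singleton, List.sum_singleton, h1]
      · obtain ⟨Ms, h1, h2, h3⟩ := ih (n - x.2) (by omega) (M + x.1.map st)
          ⟨by show 1 ≤ n - x.2; omega, hbd⟩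
        refine ⟨x.1 :: Ms, ?_, ?_, ?_⟩
        · rw [List.length_cons]
          omega
        · intro M' hM'
          rcases List.mem_cons.1 hM' with rfl | hM'
          · exact hmemG
          · exact h2 M' hM'
        · rw [List.map_cons, List.sum_cons, h3, hlam]
          abel
  intro n M hM
  rcases Nat.eq_zero_or_pos n with rfl | hn
  · refine ⟨[], le_rfl, fun _ h => absurd h (List.not_mem_nil), ?_⟩
    rw [List.map_nil, List.sum_nil]
    funext σ
    have h1 := hM σ
    rw [Nat.cast_zero] at h1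
    exact (abs_eq_zero.1 (le_antisymm h1 (abs_nonneg _))).symm
  · exact key n M ⟨hn, fun σ _ => hM σ⟩

/-! ### Realisation -/

variable {I : Type*} {ι : I → Type*} {S : Type*} {h : (Σ i, ι i) → S → ℤ}

/-- The sum of the weights of a list. -/
def lamL (h : (Σ i, ι i) → S → ℤ) (b : List (Σ i, ι i)) : S → ℤ := (b.map h).sum

lemma lamL_coe (b : List (Σ i, ι i)) : lam h (↑b : Multiset (Σ i, ι i)) = lamL h b := by
  rw [lam, Multiset.map_coe, Multiset.sum_coe]
  rfl

lemma lamL_append (b b' : List (Σ i, ι i)) : lamL h (b ++ b') = lamL h b + lamL h b' := by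
  rw [lamL, List.map_append, List.sum_append]
  rfl

/-- The member `i` has a letter of weight zero. -/
def HasZ (h : (Σ i, ι i) → S → ℤ) (i : I) : Prop := ∃ z : ι i, h ⟨i, z⟩ = 0

lemma exists_zero : ∀ (L : List I), (∀ i ∈ L, HasZ h i) →
    ∃ b : List (Σ i, ι i), b.map Sigma.fst = L ∧ lamL h b = 0
  | [], _ => ⟨[], rfl, rfl⟩
  | i :: L, hL => by
    obtain ⟨z, hz⟩ := hL i List.mem_cons_self
    obtain ⟨b, h1, h2⟩ := exists_zero L fun j hj => hL j (List.mem_cons_of_mem _ hj)
    refine ⟨⟨i, z⟩ :: b, by rw [List.map_cons, h1], ?_⟩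
    rw [lamL, List.map_cons, List.sum_cons, hz, zero_add]
    exact h2

lemma exists_block (hz : ∀ l : Σ i, ι i, HasZ h l.1) :
    ∀ (G : List (List (Σ i, ι i))), ∀ m ∈ G, ∃ b : List (Σ i, ι i),
      b.map Sigma.fst = (G.flatten).map Sigma.fst ∧ lamL h b = lamL h m
  | [], m, hm => absurd hm (List.not_mem_nil)
  | a :: G, m, hm => by
    have hz' : ∀ L : List (Σ i, ι i), ∀ i ∈ L.map Sigma.fst, HasZ h i := by
      intro L i hi
      obtain ⟨l, _, rfl⟩ := List.mem_map.1 hi
      exact hz l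
    rcases List.mem_cons.1 hm with rfl | hm
    · obtain ⟨b, h1, h2⟩ := exists_zero (h := h) ((G.flatten).map Sigma.fst) (hz' _)
      refine ⟨m ++ b, ?_, ?_⟩
      · rw [List.map_append, h1, List.flatten_cons, List.map_append]
      · rw [lamL_append, h2, add_zero]
    · obtain ⟨b, h1, h2⟩ := exists_block hz G m hm
      obtain ⟨b', h3, h4⟩ := exists_zero (h := h) (a.map Sigma.fst) (hz' _)
      refine ⟨b' ++ b, ?_, ?_⟩
      · rw [List.map_append, h1, h3, List.flatten_cons, List.map_append]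
      · rw [lamL_append, h2, h4, zero_add]

lemma exists_pow {B : List I} (hz : ∀ i ∈ B, HasZ h i) {G : List (S → ℤ)}
    (hB : ∀ m ∈ G, ∃ b : List (Σ i, ι i), b.map Sigma.fst = B ∧ lamL h b = m) :
    ∀ (n : ℕ) (Ms : List (S → ℤ)), Ms.length ≤ n → (∀ m ∈ Ms, m ∈ G) →
      ∃ b : List (Σ i, ι i), b.map Sigma.fst = (List.replicate n B).flatten ∧ lamL h b = Ms.sum
  | 0, [], _, _ => ⟨[], rfl, rfl⟩
  | 0, m :: Ms, hlen, _ => absurd hlen (by simp)
  | n + 1, [], _, _ => by
    obtain ⟨b, h1, h2⟩ := exists_zero (h := h) (List.replicate (n + 1) B).flatten (by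
      intro i hi
      obtain ⟨B', hB', hi'⟩ := List.mem_flatten.1 hi
      rw [List.eq_of_mem_replicate hB'] at hi'
      exact hz i hi')
    exact ⟨b, h1, by rw [h2, List.sum_nil]⟩
  | n + 1, m :: Ms, hlen, hMs => by
    obtain ⟨b, h1, h2⟩ := hB m (hMs m List.mem_cons_self)
    obtain ⟨b', h3, h4⟩ := exists_pow hz hB n Ms (by rw [List.length_cons] at hlen; omega)
      (fun m hm => hMs m (List.mem_cons_of_mem _ hm))
    refine ⟨b ++ b', ?_, ?_⟩
    · rw [List.map_append, h1, h3, List.replicate_succ, List.flatten_cons]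
    · rw [lamL_append, h2, h4, List.sum_cons]

/-- The list of the factors of a power of a product. -/
def powL (L0 : List I) (i0 : I) (n : ℕ) : List I :=
  L0 ++ (List.replicate (n - 1) (i0 :: L0)).flatten

/-- **The bounded vectors are the weights of words of one product.** -/
theorem exists_product {N : ℕ}
    (hN : ∀ s : Fin (N + 1) → (Σ i, ι i), ∃ a : Fin (N + 1) → ℤ, a ≠ 0 ∧
      ∑ i, a i • h (s i) = 0)
    {st : (Σ i, ι i) → (Σ i, ι i)} (hst : ∀ l, h (st l) = - h l)
    (hz : ∀ l : Σ i, ι i, HasZ h l.1) (l0 : Σ i, ι i) :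
    ∃ (L0 : List I), ∀ (n : ℕ) (M : Multiset (Σ i, ι i)), (∀ σ, |lam h M σ| ≤ n) →
      ∃ b : List (Σ i, ι i), b.map Sigma.fst = l0.1 :: powL L0 l0.1 n ∧ lamL h b = lam h M := by
  classical
  obtain ⟨z0, hz0⟩ := hz l0
  obtain ⟨G, hG⟩ := exists_gens hN hst
  let G' : List (List (Σ i, ι i)) := G.map fun M => M.toList
  refine ⟨(G'.flatten).map Sigma.fst, fun n M hM => ?_⟩
  obtain ⟨Ms, h1, h2, h3⟩ := hG n M hM
  set L0 := (G'.flatten).map Sigma.fst with hL0
  have hzL : ∀ i ∈ l0.1 :: L0, HasZ h i := by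
    intro i hi
    rcases List.mem_cons.1 hi with rfl | hi
    · exact hz l0
    · obtain ⟨l, _, rfl⟩ := List.mem_map.1 hi
      exact hz l
  have hB : ∀ m ∈ G.map (lam h), ∃ b : List (Σ i, ι i),
      b.map Sigma.fst = l0.1 :: L0 ∧ lamL h b = m := by
    intro m hm
    obtain ⟨M', hM', rfl⟩ := List.mem_map.1 hm
    obtain ⟨b, h4, h5⟩ := exists_block (h := h) hz G' M'.toList (List.mem_map.2 ⟨M', hM', rfl⟩)
    refine ⟨⟨l0.1, z0⟩ :: b, ?_, ?_⟩
    · rw [List.map_cons, h4]
    · have h6 : lamL h (⟨l0.1, z0⟩ :: b) = h ⟨l0.1, z0⟩ + lamL h b := by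
        rw [lamL, List.map_cons, List.sum_cons]
        rfl
      rw [h6, hz0, zero_add, h5, ← lamL_coe, Multiset.coe_toList]
  rcases Nat.eq_zero_or_pos n with rfl | hn
  · obtain ⟨b, h4, h5⟩ := exists_zero (h := h) (l0.1 :: powL L0 l0.1 0) (by
      intro i hi
      refine hzL i ?_
      rw [powL, Nat.zero_sub, List.replicate_zero, List.flatten_nil, List.append_nil] at hi
      exact hi)
    refine ⟨b, h4, ?_⟩
    rw [h5]
    have h6 : Ms = [] := List.length_eq_zero_iff.1 (Nat.le_zero.1 h1)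
    rw [← h3, h6]
    rfl
  · obtain ⟨b, h4, h5⟩ := exists_pow (h := h) hzL hB n (Ms.map (lam h)) (by
      rw [List.length_map]; exact h1) (fun m hm => by
      obtain ⟨M', hM', rfl⟩ := List.mem_map.1 hm
      exact List.mem_map.2 ⟨M', h2 M' hM', rfl⟩)
    refine ⟨b, ?_, by rw [h5, h3]⟩
    rw [h4, powL]
    obtain ⟨m, rfl⟩ : ∃ m, n = m + 1 := ⟨n - 1, by omega⟩
    rw [List.replicate_succ, List.flatten_cons, Nat.add_sub_cancel, List.cons_append]

end Pool.Agent.R936.Arb
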