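import Pool.Agent.R936.Arb.Num

/-!
# Products with an arbitrary factor: families of varieties of CM type
-/

set_option linter.unusedVariables false
set_option linter.unusedSectionVars false

open CategoryTheory AlgebraicGeometry TensorProduct

universe u v w

namespace Pool.Agent.R936.Arb

open Pool.Agent.H914 Pool.Agent.W534 VarClass Obj WeilCohomology Module
open Pool.Agent.Y121
open Pool.Agent.Y121.AHS (toH instAlgH HL)
open Pool.Agent.Y163 (HBasis)
open Pool.Agent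
open Pool.Agent.H281R3.HT
open Pool.Agent.R940 (CMB type_bound deg_eq repr_zero NonnegTypes IsCM HodgeConj EndH endC
  exists_cycle)
open Pool.Agent.R936
open Pool.Agent.R936.Hel
open Pool.Agent.R936.Hel2 (BB CC opL HodgeGroupDimLe IsFactorBound Few prodOf_eq pt wt HG clL algCl
  rank_le helly_gen)
open Pool.Agent.R936.Per (Fix HC KC dual_letter' exists_cmb')

variable {k : Type u} [Field k] {𝒱 : VarClass k} {ops : CycleOps 𝒱} {I : Type w} {X : I → 𝒱.Obj}

lemma exists_pr (X : I → 𝒱.Obj) : ∀ (L : List I) (i : I), Nonempty (Hel.prodOf X i L ⟶ X i)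
  | [], i => ⟨𝟙 _⟩
  | j :: L, i => ⟨fst _ _⟩

section AH

variable {T : AH.HodgeTheory ops}

theorem exists_uni' [Nonempty I]
    (hpos : ∀ (Y : 𝒱.Obj) (p q : ℤ), p < 0 ∨ q < 0 → T.pq Y p q = ⊥)
    {f : ∀ i, T.W.H (X i) →ₗ[T.W.K] T.W.H (X i)} (hf : ∀ i, Squarefree (LinearMap.charpoly (f i)))
    (hgr : ∀ i, ∀ j, ∀ x ∈ T.W.gr (X i) j, f i x ∈ T.W.gr (X i) j)
    (hpq : ∀ i, ∀ (p q : ℤ), ∀ x : HC T (X i), x ∈ T.pq (X i) p q →
      opL ℂ (f i) x ∈ T.pq (X i) p q)
    {R : ℕ} {E : Fin R → ∀ i, (T.W.H (X i) →ₗ[T.W.K] T.W.H (X i))} {z : Fin R → ℂ}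
    (hE : ∀ (i : I) (p q : ℤ) (x : (baseW T.W ℂ).H (X i)), x ∈ T.pq (X i) p q →
      ∑ j, (show (baseW T.W ℂ).K from z j) • opL ℂ (E j i) x =
        (show (baseW T.W ℂ).K from ((p - q : ℤ) : ℂ)) • x) :
    ∃ (i0 : I) (L0 : List I),
      (∀ (G : Cl T.W), (∀ i L, HG G (Hel.prodOf X i L)) → ∀ (Z : 𝒱.Obj),
        HG G (Z.prod (Hel.prodOf X i0 (powL L0 i0 Z.dim))) →
          ∀ i Lst, HG G (Z.prod (Hel.prodOf X i Lst))) ∧
      ((∀ i L, HG (algCl T.W) (Hel.prodOf X i L)) → ∀ (Z : 𝒱.Obj),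
        HomEqNum T.W (Z.prod (Hel.prodOf X i0 (powL L0 i0 Z.dim))) →
          ∀ i Lst, HomEqNum T.W (Z.prod (Hel.prodOf X i Lst))) := by
  classical
  obtain ⟨i1⟩ := ‹Nonempty I›
  let L := AlgebraicClosure T.W.K
  have hchar : CharZero L := charZero_of_injective_algebraMap (algebraMap T.W.K L).injective
  let σ₀ : L →ₐ[T.W.K] ℂ := IsAlgClosed.lift
  have hfix : Fix T L := by
    intro x hx
    have h1 := (InfiniteGalois.mem_bot_iff_fixed (k := T.W.K) (K := L) x).2 fun τ => hx τ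
    exact IntermediateField.mem_bot.1 h1
  have hM := fun i : I => exists_cmb' (T := T) (X := X i) (L := L) (f := f i) (hf i) (hgr i)
      (fun p q x hx => hpq i p q x hx) (IsAlgClosed.splits _)
  choose M μ hμ hMμ using hM
  rcases isEmpty_or_nonempty (Σ i, Fin (finrank T.W.K (T.W.H (X i)))) with hem | ⟨⟨l0⟩⟩
  · -- no letters
    have h0 : ∀ (Z : 𝒱.Obj) i Lst (c : T.W.H (Z.prod (Hel.prodOf X i Lst))), c = 0 := by
      intro Z i Lst c
      obtain ⟨g⟩ := exists_pr X Lst i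
      have h1 : (1 : T.W.H (X i)) = 0 := by
        apply AH.em_injective (W := T.W) (L := L)
        have h2 := (M i).B.b.sum_repr (AH.em T.W L 1)
        rw [← h2]
        exact Finset.sum_eq_zero fun a _ => (hem.false ⟨i, a⟩).elim
      have h2 : (1 : T.W.H (Z.prod (Hel.prodOf X i Lst))) = 0 := by
        have h3 := congrArg (T.W.map (snd Z _ ≫ g)) h1
        rwa [map_one, map_zero] at h3
      rw [← mul_one c, h2, mul_zero]
    refine ⟨i1, [], fun G _ Z _ i Lst j c _ => ?_, fun _ Z _ i Lst j _ c _ _ => h0 _ _ _ _⟩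
    rw [h0 _ _ _ c]
    exact Submodule.zero_mem _
  -- dual letters
  have hd := fun l : (Σ i, Fin (finrank T.W.K (T.W.H (X i)))) => dual_letter' (M := M) hpos l
  choose st' hst1 hst2 using hd
  have hst : ∀ l, Hel2.wt M (st' l) = - Hel2.wt M l := by
    intro l
    funext σ
    have h1 := hst2 l σ true
    have h2 := hst2 l σ false
    rw [Pi.neg_apply, Hel2.wt, Hel2.wt]
    omega
  -- letters of degree zero
  have hz : ∀ l : (Σ i, Fin (finrank T.W.K (T.W.H (X i)))), HasZ (Hel2.wt M) l.1 := by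
    intro l
    by_contra hcon
    have h1 : ∀ a, (M l.1).B.deg a ≠ 0 := by
      intro a ha
      apply hcon
      refine ⟨a, ?_⟩
      funext σ
      obtain ⟨h1, h2, h3⟩ := deg_eq (M l.1) hpos σ a
      rw [ha, Nat.cast_zero] at h1
      have h4 : pt M σ true ⟨l.1, a⟩ = (M l.1).p σ a := rfl
      have h5 : pt M σ false ⟨l.1, a⟩ = (M l.1).q σ a := rfl
      rw [Hel2.wt, h4, h5, Pi.zero_apply]
      omega
    have h2 : ∀ a, (M l.1).B.b.repr (1 : (baseW T.W L).H (X l.1)) a = 0 := fun a =>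
      repr_zero ((baseW T.W L).isInternal (X l.1)).submodule_iSupIndep (M l.1).B.b
        (fun a => (M l.1).B.deg a) (fun a => (M l.1).B.mem a) ((baseW T.W L).one_mem _) (h1 a)
    have h3 : (1 : (baseW T.W L).H (X l.1)) = 0 := by
      rw [← (M l.1).B.b.sum_repr 1]
      exact Finset.sum_eq_zero fun a _ => by rw [h2, zero_smul]
    apply (M l.1).B.b.ne_zero l.2
    rw [← mul_one ((M l.1).B.b l.2), h3, mul_zero]
  obtain ⟨L0, hL0⟩ := exists_product (h := Hel2.wt M) (fun s => rank_le M hE s) hst hz l0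
  refine ⟨l0.1, L0, fun G hG Z hZ i Lst => ?_, fun hG Z hZ i Lst => ?_⟩
  · exact hodge_arb hpos M hfix σ₀ (fun Rl hRl => algS_of_HG M hfix σ₀ hpos hG hRl)
      (fun Rl hRl => hL0 Z.dim Rl hRl) hZ i Lst
  · exact num_arb hpos M σ₀ (fun Y j z hz => AH.IsHodge.cl hz)
      (fun Rl hRl => algS_of_HG M hfix σ₀ hpos hG hRl)
      (fun Rl hRl => hL0 Z.dim Rl hRl) hZ i Lst

end AH

variable {T : AHS.HodgeTheory ops}

/-- **One product of members for all varieties.** -/
theorem exists_uni [Nonempty I] (hpos : NonnegTypes T) (hX : ∀ i, IsCM T (X i)) {R : ℕ}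
    (hR : HodgeGroupDimLe T X R) :
    ∃ (i0 : I) (L0 : List I),
      (∀ (G : Cl (toH T).W), (∀ i L, HG (T := toH T) G (Hel.prodOf X i L)) → ∀ (Z : 𝒱.Obj),
        HG (T := toH T) G (Z.prod (Hel.prodOf X i0 (powL L0 i0 Z.dim))) →
          ∀ i Lst, HG (T := toH T) G (Z.prod (Hel.prodOf X i Lst))) ∧
      ((∀ i L, HG (T := toH T) (algCl (toH T).W) (Hel.prodOf X i L)) → ∀ (Z : 𝒱.Obj),
        HomEqNum T.W (Z.prod (Hel.prodOf X i0 (powL L0 i0 Z.dim))) →
          ∀ i Lst, HomEqNum T.W (Z.prod (Hel.prodOf X i Lst))) := by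
  classical
  choose f hf hgr hpq using hX
  obtain ⟨E, z, hE⟩ := hR
  exact exists_uni' (T := toH T) (X := X) hpos (f := f) hf hgr hpq
    (R := R) (E := E) (z := z) (fun i p q x hx => hE i p q x hx)

end Pool.Agent.R936.Arb
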