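import Pool.Agent.R936.Arb.Dick
import Pool.Agent.R936.Per.Fin

/-!
# Contraction of classes on a product with an arbitrary factor
-/

set_option linter.unusedVariables false
set_option linter.unusedSectionVars false

open CategoryTheory AlgebraicGeometry TensorProduct

universe u v w

namespace Pool.Agent.R936.Arb

open Pool.Agent.H914 Pool.Agent.W534 VarClass Obj WeilCohomology Module
open Pool.Agent.Y163 (HBasis)
open Pool.Agent.R940 (repr_zero)
open Pool.Agent.R936.Hel (Cl exists_dualv)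
open Pool.Agent.H281R3.HT

variable {k : Type u} [Field k] {𝒱 : VarClass k} {ops : CycleOps 𝒱}

section

variable {W : WeilCohomology.{u, v} ops} {Z P Q : 𝒱.Obj}

/-- The external product. -/
noncomputable def zw (z : W.H Z) (x : W.H P) : W.H (Z.prod P) :=
  W.map (fst Z P) z * W.map (snd Z P) x

lemma zw_add (z z' : W.H Z) (x : W.H P) : zw (z + z') x = zw z x + zw z' x := by
  rw [zw, map_add, add_mul]; rfl

lemma zw_smul (c : W.K) (z : W.H Z) (x : W.H P) : zw (c • z) x = c • zw z x := by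
  rw [zw, map_smul, smul_mul_assoc]; rfl

lemma zw_smul' (c : W.K) (z : W.H Z) (x : W.H P) : zw z (c • x) = c • zw z x := by
  rw [zw, map_smul, mul_smul_comm]; rfl

lemma zw_zero (x : W.H P) : zw (0 : W.H Z) x = 0 := by
  rw [zw, map_zero, zero_mul]

lemma zw_sum {κ : Type*} (s : Finset κ) (z : κ → W.H Z) (x : W.H P) :
    zw (∑ i ∈ s, z i) x = ∑ i ∈ s, zw (z i) x := by
  rw [zw, map_sum, Finset.sum_mul]; rfl

lemma zw_ne {z : W.H Z} {x : W.H P} (hz : z ≠ 0) (hx : x ≠ 0) : zw z x ≠ 0 := by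
  intro h
  rw [zw, ← kappa_tmul] at h
  have h1 : z ⊗ₜ[W.K] x = 0 := (kappa W Z P).injective (by rw [h, map_zero])
  obtain ⟨f, hf⟩ : ∃ f : W.H P →ₗ[W.K] W.K, f x ≠ 0 := by
    by_contra hcon
    push Not at hcon
    exact hx ((Module.forall_dual_apply_eq_zero_iff W.K x).1 hcon)
  have h2 : TensorProduct.rid W.K (W.H Z) (LinearMap.lTensor (W.H Z) f (z ⊗ₜ[W.K] x)) = 0 := by
    rw [h1, map_zero, map_zero]
  rw [LinearMap.lTensor_tmul, TensorProduct.rid_tmul] at h2
  rcases smul_eq_zero.1 h2 with h | h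
  · exact hf h
  · exact hz h

/-- The contraction. -/
noncomputable def contr (x : W.H (Z.prod P)) (y : W.H (P.prod Q)) : W.H (Z.prod Q) :=
  W.push (snd P (Z.prod Q))
    (W.map (Obj.lift (snd P (Z.prod Q) ≫ fst Z Q) (fst P (Z.prod Q))) x *
      W.map (Obj.lift (fst P (Z.prod Q)) (snd P (Z.prod Q) ≫ snd Z Q)) y)

lemma contr_mem (S : Cl W) {x : W.H (Z.prod P)} {y : W.H (P.prod Q)} (hx : x ∈ S.C _)
    (hy : y ∈ S.C _) : contr x y ∈ S.C _ :=
  S.push _ (S.mul (S.map _ hx) (S.map _ hy))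

lemma contr_add (x x' : W.H (Z.prod P)) (y : W.H (P.prod Q)) :
    contr (x + x') y = contr x y + contr x' y := by
  rw [contr, map_add, add_mul, map_add]; rfl

lemma contr_sum {κ : Type*} (s : Finset κ) (x : κ → W.H (Z.prod P)) (y : W.H (P.prod Q)) :
    contr (∑ i ∈ s, x i) y = ∑ i ∈ s, contr (x i) y := by
  rw [contr, map_sum, Finset.sum_mul, map_sum]; rfl

lemma contr_zw {z : W.H Z} {p u : W.H P} {q : W.H Q} {i j : ℕ} (hp : p ∈ W.gr P i)
    (hu : u ∈ W.gr P j) : contr (zw z p) (zw u q) = W.tr P (p * u) • zw z q := by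
  refine gr_induction (W.isInternal Z)
    (p := fun z => contr (zw z p) (zw u q) = W.tr P (p * u) • zw z q) ?_ ?_ z
  · intro d z hz
    have e1 : Obj.lift (snd P (Z.prod Q) ≫ fst Z Q) (fst P (Z.prod Q)) ≫ fst Z P =
        snd P (Z.prod Q) ≫ fst Z Q := Obj.lift_fst _ _
    have e2 : Obj.lift (snd P (Z.prod Q) ≫ fst Z Q) (fst P (Z.prod Q)) ≫ snd Z P =
        fst P (Z.prod Q) := Obj.lift_snd _ _
    have e3 : Obj.lift (fst P (Z.prod Q)) (snd P (Z.prod Q) ≫ snd Z Q) ≫ fst P Q =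
        fst P (Z.prod Q) := Obj.lift_fst _ _
    have e4 : Obj.lift (fst P (Z.prod Q)) (snd P (Z.prod Q) ≫ snd Z Q) ≫ snd P Q =
        snd P (Z.prod Q) ≫ snd Z Q := Obj.lift_snd _ _
    have h1 : W.map (Obj.lift (snd P (Z.prod Q) ≫ fst Z Q) (fst P (Z.prod Q))) (zw z p) *
        W.map (Obj.lift (fst P (Z.prod Q)) (snd P (Z.prod Q) ≫ snd Z Q)) (zw u q) =
        (W.map (snd P (Z.prod Q)) (W.map (fst Z Q) z) * W.map (fst P (Z.prod Q)) (p * u)) *
          W.map (snd P (Z.prod Q)) (W.map (snd Z Q) q) := by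
      rw [zw, zw, map_mul, map_mul, ← W.map_comp, ← W.map_comp, ← W.map_comp, ← W.map_comp,
        e1, e2, e3, e4, W.map_comp, W.map_comp, map_mul]
      simp only [mul_assoc]
    have hpu : p * u ∈ W.gr P (i + j) := W.mul_mem hp hu
    rw [contr, h1, W.comm (W.map_mem _ (W.map_mem _ hz)) (W.map_mem _ hpu), smul_mul_assoc,
      mul_assoc, ← map_mul, map_smul, W.push_snd]
    by_cases h0 : i + j = 2 * P.dim
    · rw [h0, show d * (2 * P.dim) = 2 * (d * P.dim) by ring, pow_mul]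
      simp [zw]
    · rw [W.tr_eq_zero hpu h0, zero_smul, zero_smul, smul_zero]
  · intro a b ha hb
    rw [zw_add, contr_add, ha, hb, zw_add, smul_add]

/-- The components of a class. -/
lemma exists_dec {κ : Type*} [Fintype κ] (b : Basis κ W.K (W.H P)) (x : W.H (Z.prod P)) :
    ∃ z : κ → W.H Z, x = ∑ a, zw (z a) (b a) := by
  classical
  obtain ⟨c, hc⟩ := TensorProduct.eq_repr_basis_right b ((kappa W Z P).symm x)
  refine ⟨c, ?_⟩
  have h1 : kappa W Z P (c.sum fun i m => m ⊗ₜ[W.K] b i) = x := by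
    rw [hc, LinearEquiv.apply_symm_apply]
  rw [← h1, Finsupp.sum_fintype _ _ (fun i => by rw [TensorProduct.zero_tmul]), map_sum]
  exact Finset.sum_congr rfl fun a _ => by rw [kappa_tmul]; rfl

/-- The components of homogeneous classes are homogeneous. -/
lemma comp_mem {α κ : Type*} [Add α] [DecidableEq α] [Fintype κ] {AZ : α → Submodule W.K (W.H Z)}
    (hZi : iSupIndep AZ) (hZt : ⨆ r, AZ r = ⊤) {A : α → Submodule W.K (W.H (Z.prod P))}
    (hA : iSupIndep A) {b : Basis κ W.K (W.H P)} {τ : κ → α}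
    (hmul : ∀ r a x, x ∈ AZ r → zw x (b a) ∈ A (r + τ a)) {z : κ → W.H Z} {s : α}
    (h : ∑ a, zw (z a) (b a) ∈ A s) (a : κ) :
    z a ∈ ⨆ r : {r // r + τ a = s}, AZ r.1 := by
  classical
  have hInt : DirectSum.IsInternal AZ := DirectSum.isInternal_submodule_of_iSupIndep_of_iSup_eq_top
    hZi hZt
  let bZ := hInt.collectedBasis fun r => Module.finBasis W.K (AZ r)
  have hbZ : ∀ i, bZ i ∈ AZ i.1 := fun i => hInt.collectedBasis_mem _ i
  have : Finite (Σ r, Fin (finrank W.K (AZ r))) := Module.Finite.finite_basis bZ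
  cases nonempty_fintype (Σ r, Fin (finrank W.K (AZ r)))
  let bb := (bZ.tensorProduct b).map (kappa W Z P)
  have hbb : ∀ i a, bb (i, a) = zw (bZ i) (b a) := by
    intro i a
    rw [Module.Basis.map_apply, Module.Basis.tensorProduct_apply', kappa_tmul]
    rfl
  have hsum : ∑ a, zw (z a) (b a) = ∑ x, bZ.repr (z x.2) x.1 • bb x := by
    rw [Fintype.sum_prod_type_right]
    refine Finset.sum_congr rfl fun a _ => ?_
    conv_lhs => rw [← bZ.sum_repr (z a)]
    rw [zw_sum]
    exact Finset.sum_congr rfl fun i _ => by rw [zw_smul, hbb]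
  have hrepr : ∀ i, i.1 + τ a ≠ s → bZ.repr (z a) i = 0 := by
    intro i hi
    have h1 := repr_zero hA bb (fun x => x.1.1 + τ x.2) (fun x => by
      obtain ⟨i, a⟩ := x
      rw [hbb]
      exact hmul _ _ _ (hbZ i)) h (i := (i, a)) hi
    rw [hsum, bb.repr_sum_self] at h1
    exact h1
  rw [← bZ.sum_repr (z a)]
  refine Submodule.sum_mem _ fun i _ => ?_
  by_cases hi : i.1 + τ a = s
  · exact Submodule.smul_mem _ _ (Submodule.mem_iSup_of_mem ⟨i.1, hi⟩ (hbZ i))
  · rw [hrepr i hi, zero_smul]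
    exact Submodule.zero_mem _

end

end Pool.Agent.R936.Arb
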