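import Pool.Agent.R936.Arb.Fin
import Pool.Agent.R936.Arb.Defs
import Pool.Agent.R936.Hel2.Fin

/-!
# Products with an arbitrary factor: the standard conjecture D and the Hodge conjecture
-/

set_option linter.unusedVariables false
set_option linter.unusedSectionVars false

open CategoryTheory AlgebraicGeometry TensorProduct

universe u v w

namespace Pool.Agent.R936.Arb

open Pool.Agent.H914 Pool.Agent.W534 VarClass Obj WeilCohomology Module
open Pool.Agent.Y121 Pool.Agent.Y121.AHS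
open Pool.Agent
open Pool.Agent.H281R3.HT
open Pool.Agent.Y133.Half (spanCycles_of_algSpan)
open Pool.Agent.W536.RR (cl_mem_algSpan)
open Pool.Agent.R940 (NonnegTypes IsCM HodgeConj exists_cycle)
open Pool.Agent.R936
open Pool.Agent.R936.Hel (Cl)
open Pool.Agent.R936.Hel2 (HodgeGroupDimLe IsFactorBound Few prodOf_eq HG algCl hodge_red prodOf)

variable {k : Type u} [Field k] {𝒱 : VarClass k} {ops : CycleOps 𝒱} {I : Type w} {X : I → 𝒱.Obj}
  {T : AHS.HodgeTheory ops}

lemma hg_iff (Y : 𝒱.Obj) : HG (T := toH T) (algCl (toH T).W) Y ↔ HodgeConj T Y := by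
  constructor
  · intro h j c hc
    exact exists_cycle T.rat (spanCycles_of_algSpan (h j c hc) hc.1)
  · intro h j c hc
    obtain ⟨z, hz, rfl⟩ := h j c hc
    exact cl_mem_algSpan hz

lemma powerOf_eq (i : I) (L : List I) (n : ℕ) :
    powerOf X i L n = Hel.prodOf X i (powL L i n) := prodOf_eq X _ i

theorem arb_iff [Nonempty I] (hpos : NonnegTypes T) (hX : ∀ i, IsCM T (X i)) {R : ℕ}
    (hR : HodgeGroupDimLe T X R) {m : ℕ∞} (hm : IsFactorBound X R m)
    (h : ∀ i L, Few (R + 1) m (i :: L) → HodgeConj T (prodOf X i L)) :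
    ∃ (i0 : I) (L0 : List I), ∀ Z : 𝒱.Obj,
      (HomEqNum T.W (Z.prod (powerOf X i0 L0 Z.dim)) ↔
        ∀ i L, HomEqNum T.W (Z.prod (prodOf X i L))) ∧
      (HodgeConj T (Z.prod (powerOf X i0 L0 Z.dim)) ↔
        ∀ i L, HodgeConj T (Z.prod (prodOf X i L))) := by
  have hall : ∀ i L, HG (T := toH T) (algCl (toH T).W) (Hel.prodOf X i L) := by
    intro i L
    rw [← prodOf_eq]
    exact (hg_iff _).2 (hodge_red hpos hX hR hm h i L)
  obtain ⟨i0, L0, h1, h2⟩ := exists_uni (X := X) hpos hX hR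
  refine ⟨i0, L0, fun Z => ⟨⟨fun hD i L => ?_, fun hD => hD _ _⟩,
    ⟨fun hD i L => ?_, fun hD => hD _ _⟩⟩⟩
  · rw [prodOf_eq]
    rw [powerOf_eq] at hD
    exact h2 hall Z hD i L
  · rw [prodOf_eq]
    rw [powerOf_eq] at hD
    exact (hg_iff _).1 (h1 _ hall Z ((hg_iff _).2 hD) i L)

end Pool.Agent.R936.Arb
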