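import Pool.Agent.R936.Arb.Geo

/-!
# Hodge classes on products with an arbitrary factor
-/

set_option linter.unusedVariables false
set_option linter.unusedSectionVars false

open CategoryTheory AlgebraicGeometry TensorProduct

universe u w

namespace Pool.Agent.R936.Arb

open Pool.Agent.H914 Pool.Agent.W534 VarClass Obj WeilCohomology
open Pool.Agent.Y121
open Pool.Agent.Y163 (HBasis)
open Pool.Agent.H281R3.HT
open Pool.Agent.R940 (CMB csH csH_smul csH_map csH_em csH_gr csH_inj HSub em_HSub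
  cs_ind cs_tmul type_bound deg_eq repr_zero em_SG mem_of_SG pq_top)
open Pool.Agent.R936.Hel
open Pool.Agent.R936.Hel2 (BB CC pt wt st st_cons csH_lwf lwf_type wt_sum rel_iff st_eq pt_nonneg
  st_nonneg st_add WB exists_WB csH_tr type_of_tr clL HG st_dual)
open Pool.Agent.R936.Per (Fix hodge_desc HC KC dual_letter')

variable {k : Type u} [Field k] {𝒱 : VarClass k} {ops : CycleOps 𝒱}
  {T : AH.HodgeTheory ops} {Y Z P : 𝒱.Obj} {L : Type} [Field L] [Algebra T.W.K L]
  {I : Type w} {X : I → 𝒱.Obj} {ι : I → Type}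

lemma csH_zw (σ : L →ₐ[T.W.K] ℂ) (z : (baseW T.W L).H Z) (x : (baseW T.W L).H P) :
    csH σ _ (zw z x) = zw (csH σ Z z) (csH σ P x) := by
  rw [zw, map_mul, csH_map, csH_map]
  rfl

/-- The Hodge classes belong to the system, also with extended coefficients. -/
lemma alg_of_HSub' (hfix : Fix T L) (σ₀ : L →ₐ[T.W.K] ℂ) {G : Cl T.W} (hY : HG G Y) {J : ℕ}
    {x : (baseW T.W L).H Y} (hx : x ∈ HSub L T Y J) : x ∈ (clL G L).C Y := by
  have h1 := hodge_desc hfix σ₀ hx
  refine (Submodule.span_le (p := (clL G L).C Y)).2 ?_ h1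
  rintro _ ⟨c, hc, rfl⟩
  exact em_SG (hY J c hc)

section

variable (hpos : ∀ (Y : 𝒱.Obj) (p q : ℤ), p < 0 ∨ q < 0 → T.pq Y p q = ⊥)

include hpos in
/-- The types on `Z` are bounded by the dimension. -/
lemma type_le_dim {p q : ℤ} {x : HC T Z} (hx : x ∈ T.pq Z p q) (h0 : x ≠ 0) :
    0 ≤ p ∧ 0 ≤ q ∧ p ≤ Z.dim ∧ q ≤ Z.dim := by
  classical
  obtain ⟨h1, h2, _, _⟩ := type_bound hpos hx h0
  have hInt : DirectSum.IsInternal (fun r : ℤ × ℤ => T.pq Z r.1 r.2) :=
    DirectSum.isInternal_submodule_of_iSupIndep_of_iSup_eq_top (T.dec.indep Z) (pq_top T Z)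
  let b := hInt.collectedBasis fun r => Module.finBasis (baseW T.W ℂ).K (T.pq Z r.1 r.2)
  have hb : ∀ i, b i ∈ T.pq Z i.1.1 i.1.2 := fun i => hInt.collectedBasis_mem _ i
  have hfin : Finite (Σ r : ℤ × ℤ, Fin (Module.finrank (baseW T.W ℂ).K (T.pq Z r.1 r.2))) :=
    Module.Finite.finite_basis b
  obtain ⟨m, hm⟩ := exists_dualv b h0
  obtain ⟨h3, h4, _, _⟩ := type_bound hpos (hb m) (b.ne_zero m)
  obtain ⟨h5, h6⟩ := type_of_tr hpos (T.dec.mul hx (hb m)) hm
  refine ⟨h1, h2, ?_, ?_⟩ <;> omega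

variable (M : ∀ i, CMB T (X i) L (ι i))

include hpos in
/-- The types of the components of the Hodge classes. -/
lemma comp_types {κ : Type} [Fintype κ] {N : κ → List (Lt X ι P)} (hN : WB ops X ι P κ N)
    {z : κ → (baseW T.W L).H Z} {J : ℕ} {c : T.W.H (Z.prod P)} (hc : AH.IsHodge T _ J c)
    (hz : AH.em T.W L c = ∑ a, zw (z a) (lwf (BB M) (N a))) (a : κ) (σ : L →ₐ[T.W.K] ℂ) :
    csH σ Z (z a) ∈ T.pq Z (J - st M σ true (N a)) (J - st M σ false (N a)) := by
  classical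
  obtain ⟨b', hb'⟩ := hN _ (CC M σ)
  have h1 : ∑ a, zw (csH σ Z (z a)) (b' a) = AH.em T.W ℂ c := by
    rw [← csH_em σ, hz, map_sum]
    refine Finset.sum_congr rfl fun a _ => ?_
    rw [csH_zw, csH_lwf, hb']
  have h2 := comp_mem (W := baseW T.W ℂ) (AZ := fun r : ℤ × ℤ => T.pq Z r.1 r.2)
    (T.dec.indep Z) (pq_top T Z) (A := fun r : ℤ × ℤ => T.pq (Z.prod P) r.1 r.2)
    (T.dec.indep (Z.prod P)) (b := b')
    (τ := fun a => ((st M σ true (N a), st M σ false (N a)) : ℤ × ℤ))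
    (fun r a x hx => by
      rw [hb']
      exact T.dec.mul (T.dec.map _ hx) (T.dec.map _ (lwf_type M σ (N a))))
    (z := fun a => csH σ Z (z a)) (s := ((J : ℤ), (J : ℤ))) (by
      beta_reduce
      rw [h1]
      exact hc.2) a
  refine (iSup_le ?_ : (⨆ r : {r : ℤ × ℤ // r + (st M σ true (N a), st M σ false (N a)) =
    ((J : ℤ), (J : ℤ))}, T.pq Z r.1.1 r.1.2) ≤ _) h2
  rintro ⟨⟨p, q⟩, hr⟩
  have h3 : p + st M σ true (N a) = J := congrArg Prod.fst hr
  have h4 : q + st M σ false (N a) = J := congrArg Prod.snd hr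
  have h5 : p = J - st M σ true (N a) := by omega
  have h6 : q = J - st M σ false (N a) := by omega
  rw [← h5, ← h6]

lemma lam_eq (N : List (Lt X ι P)) (σ : L →ₐ[T.W.K] ℂ) :
    lam (wt M) (↑(N.map Sigma.fst) : Multiset (Σ i, ι i)) σ =
      st M σ true N - st M σ false N := by
  rw [lam, wt_sum, st_eq, st_eq]

include hpos in
/-- The product of a component of a Hodge class and a word of the same weight is a Hodge class. -/
lemma comp_HSub [∀ i, Finite (ι i)] {Q : 𝒱.Obj} (σ₀ : L →ₐ[T.W.K] ℂ) {J : ℕ}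
    {z : (baseW T.W L).H Z} (hz0 : z ≠ 0) {N : List (Lt X ι P)} {C : List (Lt X ι Q)}
    (hz : ∀ σ : L →ₐ[T.W.K] ℂ, csH σ Z z ∈ T.pq Z (J - st M σ true N) (J - st M σ false N))
    (hwt : ∀ σ, st M σ true N - st M σ false N = st M σ true C - st M σ false C) :
    ∃ J' : ℕ, zw z (lwf (BB M) C) ∈ HSub L T (Z.prod Q) J' := by
  have hb : ∀ σ : L →ₐ[T.W.K] ℂ, 0 ≤ (J : ℤ) - st M σ true N ∧ 0 ≤ (J : ℤ) - st M σ false N := by
    intro σ
    have h0 : csH σ Z z ≠ 0 := fun h => hz0 (csH_inj σ (h.trans (map_zero _).symm))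
    obtain ⟨h1, h2, _, _⟩ := type_le_dim hpos (hz σ) h0
    exact ⟨h1, h2⟩
  have h2 := fun σ => st_add M hpos σ N
  have h3 := fun σ => st_add M hpos σ C
  have h4 := fun σ b => st_nonneg M hpos σ b C
  have h5 : ∀ σ, (J : ℤ) - st M σ true N + st M σ true C =
      (((J : ℤ) - st M σ₀ true N + st M σ₀ true C).toNat : ℕ) ∧
      (J : ℤ) - st M σ false N + st M σ false C =
      (((J : ℤ) - st M σ₀ true N + st M σ₀ true C).toNat : ℕ) := by
    intro σ
    have := hb σ
    have := hb σ₀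
    have := h2 σ
    have := h2 σ₀
    have := h3 σ
    have := h3 σ₀
    have := h4 σ true
    have := h4 σ₀ true
    have := h4 σ false
    have := h4 σ₀ false
    have := hwt σ
    have := hwt σ₀
    omega
  refine ⟨((J : ℤ) - st M σ₀ true N + st M σ₀ true C).toNat, fun σ => ?_⟩
  rw [csH_zw, csH_lwf]
  have h6 := T.dec.mul (T.dec.map (fst Z Q) (hz σ)) (T.dec.map (snd Z Q) (lwf_type M σ C))
  rw [(h5 σ).1, (h5 σ).2] at h6
  exact h6

/-- The external product of words. -/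
lemma zw_lwf {Q : 𝒱.Obj} (N : List (Lt X ι P)) (C : List (Lt X ι Q)) :
    zw (lwf (BB M) N) (lwf (BB M) C) = lwf (BB M) (pull (fst P Q) N ++ pull (snd P Q) C) := by
  rw [zw, map_lwf, map_lwf, lwf_append]

/-- Balanced words belong to the system. -/
lemma algS_of_HG [∀ i, Finite (ι i)] (hfix : Fix T L) (σ₀ : L →ₐ[T.W.K] ℂ) {G : Cl T.W}
    (hpos : ∀ (Y : 𝒱.Obj) (p q : ℤ), p < 0 ∨ q < 0 → T.pq Y p q = ⊥)
    (h : ∀ i Lst, HG G (Hel.prodOf X i Lst)) {R : Multiset (Σ i, ι i)}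
    (hR : toZ R ∈ Hel.Rel (wt M) 0) : AlgS (clL G L) (BB M) R := by
  induction R using Quotient.inductionOn with
  | h R =>
    match R, hR with
    | [], hR => exact AlgS.zero (clL G L)
    | l :: Lst, hR =>
      obtain ⟨C, h3, _, h5⟩ := isCan_prod' (BB M) Lst l
      intro Z N hN
      obtain ⟨N', h1, h2⟩ := reorder _ N hN
      obtain ⟨ε, _, hε⟩ := lwf_perm (B := BB M) h1
      obtain ⟨g, hg⟩ := h5 Z N' h2
      rw [hε, hg]
      obtain ⟨J, _, hJ⟩ := Hel2.lwf_HSub M hpos σ₀ C (by rw [h3]; exact hR)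
      exact Submodule.smul_mem _ _ ((clL G L).map g (alg_of_HSub' hfix σ₀ (h _ _) hJ))

include hpos in
/-- **Hodge classes on products with an arbitrary factor.** -/
theorem hodge_arb [∀ i, Finite (ι i)] (hfix : Fix T L) (σ₀ : L →ₐ[T.W.K] ℂ) {G : Cl T.W}
    (hAlg : ∀ R : Multiset (Σ i, ι i), toZ R ∈ Hel.Rel (wt M) 0 → AlgS (clL G L) (BB M) R)
    {i0 : I} {L' : List I}
    (hb : ∀ R : Multiset (Σ i, ι i), (∀ σ, |lam (wt M) R σ| ≤ (Z.dim : ℕ)) →
      ∃ b : List (Σ i, ι i), b.map Sigma.fst = i0 :: L' ∧ lamL (wt M) b = lam (wt M) R)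
    (hZ : HG G (Z.prod (Hel.prodOf X i0 L'))) (i : I) (Lst : List I) :
    HG G (Z.prod (Hel.prodOf X i Lst)) := by
  classical
  intro J c hc
  refine mem_of_SG (L := L) ?_
  obtain ⟨κ, hκ, N, hN⟩ := exists_WB (ops := ops) (X := X) (ι := ι) Lst i
  cases nonempty_fintype κ
  obtain ⟨b, hb'⟩ := hN _ (BB M)
  obtain ⟨z, hz⟩ := exists_dec (W := baseW T.W L) b (AH.em T.W L c)
  have hz' : AH.em T.W L c = ∑ a, zw (z a) (lwf (BB M) (N a)) := by
    rw [hz]
    exact Finset.sum_congr rfl fun a _ => by rw [hb']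
  rw [hz']
  refine Submodule.sum_mem _ fun a _ => ?_
  by_cases hz0 : z a = 0
  · rw [hz0, zw_zero]
    exact Submodule.zero_mem _
  have htype := fun σ => comp_types hpos M hN hc hz' a σ
  obtain ⟨b1, hb1, hb2⟩ := hb (↑((N a).map Sigma.fst)) (fun σ => by
    have h0 : csH σ Z (z a) ≠ 0 := fun h => hz0 (csH_inj σ (h.trans (map_zero _).symm))
    obtain ⟨h1, h2, h3, h4⟩ := type_le_dim hpos (htype σ) h0
    rw [lam_eq, abs_le]
    constructor <;> omega)
  match b1, hb1, hb2 with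
  | l :: b2, hb1, hb2 =>
    rw [List.map_cons] at hb1
    obtain ⟨h1, h2⟩ := List.cons.inj hb1
    subst h1
    subst h2
    obtain ⟨C, hC1, hC2, _⟩ := isCan_prod' (BB M) b2 l
    have hwt : ∀ σ, st M σ true (N a) - st M σ false (N a) = st M σ true C - st M σ false C := by
      intro σ
      rw [← lam_eq, ← hb2, ← lam_eq, hC1, lamL_coe]
    obtain ⟨J', hJ'⟩ := comp_HSub hpos M σ₀ (Q := Hel.prodOf X l.1 (b2.map Sigma.fst)) hz0 htype hwt
    have hmem := alg_of_HSub' hfix σ₀ hZ hJ'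
    -- the dual word
    obtain ⟨κ', hκ', N', hN'⟩ := exists_WB (ops := ops) (X := X) (ι := ι) (b2.map Sigma.fst) l.1
    obtain ⟨b', hb''⟩ := hN' _ (BB M)
    obtain ⟨m, hm⟩ := exists_dualv b' hC2
    rw [hb''] at hm
    have hdual := fun σ b => st_dual M hpos hm σ b
    have hword : zw (lwf (BB M) (N' m)) (lwf (BB M) (N a)) ∈ (clL G L).C _ := by
      rw [zw_lwf]
      refine hAlg _ ?_ _ _ rfl
      rw [rel_iff]
      intro σ
      rw [st_eq, st_eq, st, st, List.map_append, List.map_append, List.sum_append,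
        List.sum_append]
      have e1 : ∀ b, ((pull (fst (Hel.prodOf X l.1 (b2.map Sigma.fst)) (Hel.prodOf X i Lst))
          (N' m)).map fun y => pt M σ b y.1).sum = st M σ b (N' m) := by
        intro b
        rw [pull, List.map_map]
        rfl
      have e2 : ∀ b, ((pull (snd (Hel.prodOf X l.1 (b2.map Sigma.fst)) (Hel.prodOf X i Lst))
          (N a)).map fun y => pt M σ b y.1).sum = st M σ b (N a) := by
        intro b
        rw [pull, List.map_map]
        rfl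
      rw [e1, e1, e2, e2]
      have h1 := hdual σ true
      have h2 := hdual σ false
      have h3 := hwt σ
      omega
    have h5 := contr_mem (clL G L) hmem hword
    rw [contr_zw (lwf_gr _) (lwf_gr _)] at h5
    have h6 := Submodule.smul_mem _ ((baseW T.W L).tr _ (lwf (BB M) C * lwf (BB M) (N' m)))⁻¹ h5
    rwa [smul_smul, inv_mul_cancel₀ hm, one_smul] at h6

end

end Pool.Agent.R936.Arb
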