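import Pool.Agent.R936.Arb.Main
import Pool.Agent.Y129.Law

/-!
# Numerically trivial cycles on products with an arbitrary factor
-/

set_option linter.unusedVariables false
set_option linter.unusedSectionVars false

open CategoryTheory AlgebraicGeometry TensorProduct

universe u v w

namespace Pool.Agent.R936.Arb

open Pool.Agent.H914 Pool.Agent.W534 VarClass Obj WeilCohomology Module
open Pool.Agent.Y121
open Pool.Agent.Y163 (HBasis)
open Pool.Agent.H281R3.HT
open Pool.Agent.W536.RR (algSpan_map algSpan_mul one_mem_algSpan cl_mem_algSpan algSpan_push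
  numZ numZ_mul numZ_map numZ_push mem_transc algSpan_induction homEqNum_of_numZ)
open Pool.Agent.R940 (CMB csH csH_smul csH_map csH_em csH_gr csH_inj HSub em_HSub
  cs_ind cs_tmul type_bound deg_eq repr_zero em_SG mem_of_SG pq_top SG SG_ind)
open Pool.Agent.R936.Hel
open Pool.Agent.R936.Hel2 (BB CC pt wt st st_cons csH_lwf lwf_type wt_sum rel_iff st_eq pt_nonneg
  st_nonneg st_add WB exists_WB csH_tr type_of_tr clL HG st_dual algCl)
open Pool.Agent.R936.Per (Fix hodge_desc HC KC dual_letter')

variable {k : Type u} [Field k] {𝒱 : VarClass k} {ops : CycleOps 𝒱}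

section

variable {W : WeilCohomology.{u, v} ops} {Z P Q : 𝒱.Obj}

lemma contr_smul (c : W.K) (x : W.H (Z.prod P)) (y : W.H (P.prod Q)) :
    contr (c • x) y = c • contr x y := by
  rw [contr, map_smul, smul_mul_assoc, map_smul]; rfl

/-- The contraction of a numerically trivial class. -/
lemma contr_numZ {x : W.H (Z.prod P)} {y : W.H (P.prod Q)} (hx : x ∈ numZ W _)
    (hy : y ∈ algSpan W _) : contr x y ∈ numZ W _ :=
  numZ_push _ (numZ_mul (numZ_map _ hx) (algSpan_map _ hy))

/-- The dual basis. -/
lemma exists_dual {κ : Type*} [Fintype κ] [DecidableEq κ] (b : Basis κ W.K (W.H P)) :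
    ∃ g : κ → κ → W.K, ∀ a a', W.tr P (b a' * ∑ m, g m a • b m) = if a' = a then 1 else 0 := by
  let R : Matrix κ κ W.K := fun i j => W.tr P (b i * b j)
  have hdet : R.det ≠ 0 := by
    intro h0
    obtain ⟨y, hy, hy0⟩ := Matrix.exists_vecMul_eq_zero_iff.2 h0
    apply hy
    have h2 : ∑ i, y i • b i = 0 := by
      apply W.nondeg
      intro w
      have h3 : ∀ j, W.tr P ((∑ i, y i • b i) * b j) = 0 := by
        intro j
        have h4 := congrFun hy0 j
        rw [Matrix.vecMul, dotProduct, Pi.zero_apply] at h4
        rw [Finset.sum_mul, map_sum, ← h4]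
        refine Finset.sum_congr rfl fun i _ => ?_
        rw [smul_mul_assoc, map_smul, smul_eq_mul]
      rw [← b.sum_repr w, Finset.mul_sum, map_sum]
      refine Finset.sum_eq_zero fun j _ => ?_
      rw [mul_smul_comm, map_smul, h3, smul_zero]
    funext i
    exact Fintype.linearIndependent_iff.1 b.linearIndependent y h2 i
  refine ⟨fun m a => R⁻¹ m a, fun a a' => ?_⟩
  have h1 : (R * R⁻¹) a' a = if a' = a then 1 else 0 := by
    rw [Matrix.mul_nonsing_inv _ (isUnit_iff_ne_zero.2 hdet), Matrix.one_apply]
  rw [← h1, Matrix.mul_apply, Finset.mul_sum, map_sum]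
  refine Finset.sum_congr rfl fun m _ => ?_
  rw [mul_smul_comm, map_smul, smul_eq_mul, mul_comm]

end

variable {T : AH.HodgeTheory ops} {Y Z P : 𝒱.Obj} {L : Type} [Field L] [Algebra T.W.K L]
  {I : Type w} {X : I → 𝒱.Obj} {ι : I → Type}

lemma clL_le (x : (baseW T.W L).H Y) (hx : x ∈ (clL (algCl T.W) L).C Y) :
    x ∈ algSpan (baseW T.W L) Y := by
  refine SG_ind (P := fun x => x ∈ algSpan (baseW T.W L) Y) ?_ ?_ ?_ ?_ hx
  · exact Submodule.zero_mem _
  · intro a b ha hb; exact Submodule.add_mem _ ha hb
  · intro c a ha; exact Submodule.smul_mem _ _ ha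
  · intro a ha
    refine algSpan_induction (p := fun a => AH.em T.W L a ∈ algSpan (baseW T.W L) Y)
      ?_ ?_ ?_ ?_ ha
    · rw [AH.em_zero]; exact Submodule.zero_mem _
    · intro x y hx hy
      have h3 : AH.em T.W L (x + y) = AH.em T.W L x + AH.em T.W L y := TensorProduct.tmul_add _ _ _
      rw [h3]
      exact Submodule.add_mem _ hx hy
    · intro c x hx
      have h3 : AH.em T.W L (c • x) =
          (show (baseW T.W L).K from algebraMap T.W.K L c) • AH.em T.W L x := by
        have h4 : ((1 : L) ⊗ₜ[T.W.K] (c • x) : L ⊗[T.W.K] T.W.H Y) =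
            algebraMap T.W.K L c • ((1 : L) ⊗ₜ[T.W.K] x) := by
          rw [TensorProduct.tmul_smul, TensorProduct.smul_tmul', TensorProduct.smul_tmul',
            Algebra.smul_def, smul_eq_mul]
        exact h4
      rw [h3]
      exact Submodule.smul_mem _ _ hx
    · intro j z hz
      exact cl_mem_algSpan (W := baseW T.W L) hz

section

variable (hpos : ∀ (Y : 𝒱.Obj) (p q : ℤ), p < 0 ∨ q < 0 → T.pq Y p q = ⊥)

variable (M : ∀ i, CMB T (X i) L (ι i))

include hpos in
/-- **Numerically trivial cycles on products with an arbitrary factor.** -/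
theorem num_arb [∀ i, Finite (ι i)] (σ₀ : L →ₐ[T.W.K] ℂ)
    (hcyc : ∀ (Y : 𝒱.Obj) (j : ℕ) (z : Y.Cycles), Y.IsCyc j z → AH.IsHodge T Y j (T.W.cl Y z))
    (hAlg : ∀ R : Multiset (Σ i, ι i), toZ R ∈ Hel.Rel (wt M) 0 →
      AlgS (clL (algCl T.W) L) (BB M) R)
    {i0 : I} {L' : List I}
    (hb : ∀ R : Multiset (Σ i, ι i), (∀ σ, |lam (wt M) R σ| ≤ (Z.dim : ℕ)) →
      ∃ b : List (Σ i, ι i), b.map Sigma.fst = i0 :: L' ∧ lamL (wt M) b = lam (wt M) R)
    (hZ : HomEqNum T.W (Z.prod (Hel.prodOf X i0 L'))) (i : I) (Lst : List I) :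
    HomEqNum T.W (Z.prod (Hel.prodOf X i Lst)) := by
  classical
  intro J hJ cy hcy hnum
  have hchar := (baseW T.W L).charZero
  have hc : AH.IsHodge T _ J (T.W.cl _ cy) := hcyc _ _ _ hcy
  set c := T.W.cl _ cy with hcdef
  -- the class is numerically trivial
  have hx : AH.em T.W L c ∈ numZ (baseW T.W L) (Z.prod (Hel.prodOf X i Lst)) := by
    refine ⟨cl_mem_algSpan (W := baseW T.W L) hcy, mem_transc.2 fun d hd => ?_⟩
    refine algSpan_induction (p := fun d => (baseW T.W L).tr _ (AH.em T.W L c * d) = 0)
      ?_ ?_ ?_ ?_ hd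
    · rw [mul_zero, map_zero]
    · intro x y hx hy; rw [mul_add, map_add, hx, hy, add_zero]
    · intro t x hx; rw [mul_smul_comm, map_smul, hx, smul_zero]
    · intro l w hw
      by_cases hi : l = (Z.prod (Hel.prodOf X i Lst)).dim - J
      · subst hi
        have h1 := ops.mul_mem hcy hw
        rw [show J + ((Z.prod (Hel.prodOf X i Lst)).dim - J) =
          (Z.prod (Hel.prodOf X i Lst)).dim by omega] at h1
        have h2 : AH.em T.W L c = (baseW T.W L).cl _ cy := rfl
        rw [h2, ← (baseW T.W L).cl_mul, (baseW T.W L).tr_cl h1, hnum w hw, Rat.cast_zero]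
      · exact (baseW T.W L).tr_eq_zero ((baseW T.W L).mul_mem ((baseW T.W L).cl_mem hcy)
          ((baseW T.W L).cl_mem hw)) (by omega)
  obtain ⟨κ, hκ, N, hN⟩ := exists_WB (ops := ops) (X := X) (ι := ι) Lst i
  cases nonempty_fintype κ
  obtain ⟨b, hb'⟩ := hN _ (BB M)
  obtain ⟨z, hz⟩ := exists_dec (W := baseW T.W L) b (AH.em T.W L c)
  have hz' : AH.em T.W L c = ∑ a, zw (z a) (lwf (BB M) (N a)) := by
    rw [hz]
    exact Finset.sum_congr rfl fun a _ => by rw [hb']
  obtain ⟨g, hg⟩ := exists_dual (W := baseW T.W L) b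
  have hzero : ∀ a, z a = 0 := by
    intro a
    by_contra hz0
    have htype := fun σ => comp_types hpos M hN hc hz' a σ
    obtain ⟨b1, hb1, hb2⟩ := hb (↑((N a).map Sigma.fst)) (fun σ => by
      have h0 : csH σ Z (z a) ≠ 0 := fun h => hz0 (csH_inj σ (h.trans (map_zero _).symm))
      obtain ⟨h1, h2, h3, h4⟩ := type_le_dim hpos (htype σ) h0
      rw [lam_eq, abs_le]
      constructor <;> omega)
    match b1, hb1, hb2 with
    | l :: b2, hb1, hb2 =>
      rw [List.map_cons] at hb1
      obtain ⟨h1, h2⟩ := List.cons.inj hb1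
      subst h1
      subst h2
      obtain ⟨C, hC1, hC2, _⟩ := isCan_prod' (BB M) b2 l
      have hwt : ∀ σ, st M σ true (N a) - st M σ false (N a) =
          st M σ true C - st M σ false C := by
        intro σ
        rw [← lam_eq, ← hb2, ← lam_eq, hC1, lamL_coe]
      -- complementary words
      let Co : κ → κ → Prop := fun m a' => ∀ σ e, st M σ e (N m) + st M σ e (N a') =
        (Hel.prodOf X i Lst).dim
      have hCo : ∀ m a', (baseW T.W L).tr _ (b a' * b m) ≠ 0 → Co m a' := by
        intro m a' h σ e
        rw [hb', hb'] at h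
        rw [add_comm]
        exact st_dual M hpos h σ e
      let u : (baseW T.W L).H (Hel.prodOf X i Lst) :=
        ∑ m ∈ Finset.univ.filter (fun m => Co m a), g m a • b m
      -- the degree of `u`
      have hdeg : ∀ m, Co m a → ((N m).map fun y => dg (BB M) y.1).sum =
          2 * (Hel.prodOf X i Lst).dim - ((N a).map fun y => dg (BB M) y.1).sum := by
        intro m hm
        have h1 := hm σ₀ true
        have h2 := hm σ₀ false
        have h3 := st_add M hpos σ₀ (N m)
        have h4 := st_add M hpos σ₀ (N a)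
        have h5 : ((N m).map fun y => dg (BB M) y.1).sum =
          ((N m).map fun y => (M y.1.1).B.deg y.1.2).sum := rfl
        have h6 : ((N a).map fun y => dg (BB M) y.1).sum =
          ((N a).map fun y => (M y.1.1).B.deg y.1.2).sum := rfl
        rw [h5, h6]
        omega
      have hu : u ∈ (baseW T.W L).gr _
          (2 * (Hel.prodOf X i Lst).dim - ((N a).map fun y => dg (BB M) y.1).sum) := by
        refine Submodule.sum_mem _ fun m hm => Submodule.smul_mem _ _ ?_
        rw [← hdeg m (Finset.mem_filter.1 hm).2, hb']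
        exact lwf_gr _
      have htr : ∀ a', (baseW T.W L).tr _ (b a' * u) = if a' = a then 1 else 0 := by
        intro a'
        by_cases hsame : ∀ σ e, st M σ e (N a') = st M σ e (N a)
        · rw [← hg a a']
          show (baseW T.W L).tr _ (b a' *
            ∑ m ∈ Finset.univ.filter (fun m => Co m a), g m a • b m) = _
          rw [Finset.mul_sum, map_sum, Finset.mul_sum, map_sum, Finset.sum_filter]
          refine Finset.sum_congr rfl fun m _ => ?_
          split_ifs with h
          · rfl
          · rw [mul_smul_comm, map_smul]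
            by_cases h0 : (baseW T.W L).tr _ (b a' * b m) = 0
            · rw [h0, smul_zero]
            · exfalso
              apply h
              intro σ e
              rw [← hsame σ e]
              exact hCo m a' h0 σ e
        · have hne : a' ≠ a := by
            rintro rfl
            exact hsame fun _ _ => rfl
          rw [if_neg hne]
          show (baseW T.W L).tr _ (b a' *
            ∑ m ∈ Finset.univ.filter (fun m => Co m a), g m a • b m) = _
          rw [Finset.mul_sum, map_sum]
          refine Finset.sum_eq_zero fun m hm => ?_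
          rw [mul_smul_comm, map_smul]
          by_cases h0 : (baseW T.W L).tr _ (b a' * b m) = 0
          · rw [h0, smul_zero]
          · exfalso
            apply hsame
            intro σ e
            have h1 := hCo m a' h0 σ e
            have h2 := (Finset.mem_filter.1 hm).2 σ e
            omega
      have hword : zw u (lwf (BB M) C) ∈ algSpan (baseW T.W L) _ := by
        show zw (∑ m ∈ Finset.univ.filter (fun m => Co m a), g m a • b m) (lwf (BB M) C) ∈ _
        rw [zw_sum]
        refine Submodule.sum_mem _ fun m hm => ?_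
        rw [zw_smul, hb', zw_lwf]
        refine Submodule.smul_mem _ _ (clL_le _ (hAlg _ ?_ _ _ rfl))
        rw [rel_iff]
        intro σ
        rw [st_eq, st_eq, st, st, List.map_append, List.map_append, List.sum_append,
          List.sum_append]
        have e1 : ∀ e, ((pull (fst (Hel.prodOf X i Lst) (Hel.prodOf X l.1 (b2.map Sigma.fst)))
            (N m)).map fun y => pt M σ e y.1).sum = st M σ e (N m) := by
          intro e
          rw [pull, List.map_map]
          rfl
        have e2 : ∀ e, ((pull (snd (Hel.prodOf X i Lst) (Hel.prodOf X l.1 (b2.map Sigma.fst)))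
            C).map fun y => pt M σ e y.1).sum = st M σ e C := by
          intro e
          rw [pull, List.map_map]
          rfl
        rw [e1, e1, e2, e2]
        have h1 := (Finset.mem_filter.1 hm).2 σ true
        have h2 := (Finset.mem_filter.1 hm).2 σ false
        have h3 := hwt σ
        omega
      have h5 := contr_numZ hx hword
      rw [hz', contr_sum] at h5
      have h6 : ∑ a', contr (zw (z a') (lwf (BB M) (N a'))) (zw u (lwf (BB M) C)) =
          zw (z a) (lwf (BB M) C) := by
        rw [Finset.sum_eq_single a]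
        · rw [contr_zw (lwf_gr _) hu, ← hb', htr, if_pos rfl, one_smul]
        · intro a' _ hne
          rw [contr_zw (lwf_gr _) hu, ← hb', htr, if_neg hne, zero_smul]
        · intro h
          exact absurd (Finset.mem_univ _) h
      rw [h6] at h5
      have h7 : HomEqNum (baseW T.W L) (Z.prod (Hel.prodOf X l.1 (b2.map Sigma.fst))) :=
        Pool.Agent.Y129.homEqNum_base' L hZ
      exact zw_ne hz0 hC2 (Pool.Agent.Y129.homEqNum_algSpan h7 h5.1 h5.2)
  have h8 : AH.em T.W L c = 0 := by
    rw [hz']
    exact Finset.sum_eq_zero fun a _ => by rw [hzero, zw_zero]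
  exact AH.em_injective (W := T.W) (L := L) h8

end

end Pool.Agent.R936.Arb
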