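import Pool.Agent.R936.Arb.Iff
import Pool.Agent.R940.HFin

/-!
# Products with an arbitrary factor: absolutely Hodge classes
-/

set_option linter.unusedVariables false
set_option linter.unusedSectionVars false

open CategoryTheory AlgebraicGeometry TensorProduct

universe u v w

namespace Pool.Agent.R936.Arb

open Pool.Agent.H914 Pool.Agent.W534 VarClass Obj WeilCohomology Module
open Pool.Agent.Y121 Pool.Agent.Y121.AHS
open Pool.Agent
open Pool.Agent.H281R3.HT
open Pool.Agent.Y133.Half (ClassPred)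
open Pool.Agent.R940 (NonnegTypes IsCM HodgeConj exists_cycle)
open Pool.Agent.R936
open Pool.Agent.R936.Hel (Cl)
open Pool.Agent.R936.Hel2 (HodgeGroupDimLe IsFactorBound Few prodOf_eq HG helly_gen prodOf)

variable {k : Type u} [Field k] {𝒱 : VarClass k} {ops : CycleOps 𝒱} {I : Type w} {X : I → 𝒱.Obj}
  {T : AHS.HodgeTheory ops}

/-- The system of the classes with a property. -/
noncomputable def predCl {W : WeilCohomology.{u, 0} ops} (Q : ClassPred W) : Cl W where
  C Y := Q.sys.C Y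
  one Y := Q.sys.one Y
  mul ha hb := Q.sys.mul ha hb
  map f _ ha := Q.sys.map f ha
  push f _ ha := Q.sys.push f ha

lemma hg_pred (Q : ClassPred T.W) (Y : 𝒱.Obj) :
    HG (T := toH T) (predCl Q) Y ↔ ∀ (j : ℕ) (c : T.W.H Y), IsHodge T Y j c → Q.P Y j c := by
  constructor
  · intro h j c hc
    have h1 : c ∈ Q.sp Y := h j c hc
    have h2 := ClassPred.sp_proj h1 j
    rwa [proj_same _ hc.1] at h2
  · intro h j c hc
    exact ClassPred.sp_of (h j c hc)

/-- The reduction to products with few different factors. -/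
theorem pred_red (hpos : NonnegTypes T) (hX : ∀ i, IsCM T (X i)) {R : ℕ}
    (hR : HodgeGroupDimLe T X R) {m : ℕ∞} (hm : IsFactorBound X R m) (Q : ClassPred T.W)
    (h : ∀ i L, Few (R + 1) m (i :: L) → ∀ (j : ℕ) (c : T.W.H (prodOf X i L)),
      IsHodge T (prodOf X i L) j c → Q.P (prodOf X i L) j c) (i : I) (L : List I) (j : ℕ)
    (c : T.W.H (prodOf X i L)) (hc : IsHodge T (prodOf X i L) j c) : Q.P (prodOf X i L) j c := by
  have h1 := helly_gen hpos hX hR hm (predCl Q) (fun i L hL => by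
    rw [← prodOf_eq]
    exact (hg_pred Q _).2 (h i L hL)) i L
  rw [← prodOf_eq] at h1
  exact (hg_pred Q _).1 h1 j c hc

/-- All Hodge classes on `Y` are absolutely Hodge. -/
def HodgeAbsolute {T : HodgeTheory ops} (D : Conjugates T) (Y : 𝒱.Obj) : Prop :=
  ∀ (j : ℕ) (c : T.W.H Y), IsHodge T Y j c → IsAbsHodge D Y j c

theorem abs_iff [Nonempty I] (D : Conjugates T) (hpos : NonnegTypes T) (hX : ∀ i, IsCM T (X i))
    {R : ℕ} (hR : HodgeGroupDimLe T X R) {m : ℕ∞} (hm : IsFactorBound X R m)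
    (h : ∀ i L, Few (R + 1) m (i :: L) → HodgeAbsolute D (prodOf X i L)) :
    (∀ i L, HodgeAbsolute D (prodOf X i L)) ∧
    ∃ (i0 : I) (L0 : List I), ∀ Z : 𝒱.Obj,
      HodgeAbsolute D (Z.prod (powerOf X i0 L0 Z.dim)) ↔
        ∀ i L, HodgeAbsolute D (Z.prod (prodOf X i L)) := by
  have h0 : ∀ i L, HodgeAbsolute D (prodOf X i L) :=
    pred_red hpos hX hR hm (AH.absPred (toD D)) h
  refine ⟨h0, ?_⟩
  have hall : ∀ i L, HG (T := toH T) (predCl (AH.absPred (toD D))) (Hel.prodOf X i L) := by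
    intro i L
    rw [← prodOf_eq]
    exact (hg_pred (AH.absPred (toD D)) _).2 (h0 i L)
  obtain ⟨i0, L0, h1, h2⟩ := exists_uni (X := X) hpos hX hR
  refine ⟨i0, L0, fun Z => ⟨fun hD i L => ?_, fun hD => hD _ _⟩⟩
  rw [prodOf_eq]
  rw [powerOf_eq] at hD
  exact (hg_pred (AH.absPred (toD D)) _).1
    (h1 _ hall Z ((hg_pred (AH.absPred (toD D)) _).2 hD) i L)

end Pool.Agent.R936.Arb
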